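import Pool.Agent.H48.SymDP.Irr.Field
import Pool.Agent.H88.SymDP.Sections

/-!
# Proportional sections
-/

open Polynomial

namespace Pool.Agent.H48.SymDP

section aux

/-- Parity: `u₀ ^ 2 = 4 κ₁ (x ^ 3 + 2) (u₁ ^ 2 + 3 u₂ ^ 2)` has no nonzero solution over `ℚ`. -/
lemma natDegree_sq_add {a b : ℚ[X]} (h : a ≠ 0 ∨ b ≠ 0) :
    a ^ 2 + 3 * b ^ 2 ≠ 0 ∧ (a ^ 2 + 3 * b ^ 2).natDegree = 2 * max a.natDegree b.natDegree := by
  set n := max a.natDegree b.natDegree with hn
  have ha : a.natDegree ≤ n := le_max_left _ _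
  have hb : b.natDegree ≤ n := le_max_right _ _
  have h3 : (3 : ℚ[X]) = C 3 := rfl
  have hc : (a ^ 2 + 3 * b ^ 2).coeff (2 * n) = (a.coeff n) ^ 2 + 3 * (b.coeff n) ^ 2 := by
    have e1 : (a ^ 2).coeff (2 * n) = (a.coeff n) ^ 2 := by
      rw [mul_comm 2 n, ← coeff_pow_of_natDegree_le ha, mul_comm]
    have e2 : (b ^ 2).coeff (2 * n) = (b.coeff n) ^ 2 := by
      rw [mul_comm 2 n, ← coeff_pow_of_natDegree_le hb, mul_comm]
    rw [coeff_add, h3, coeff_C_mul, e1, e2]
  have hne : (a.coeff n) ^ 2 + 3 * (b.coeff n) ^ 2 ≠ 0 := by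
    intro h0
    have ha0 : a.coeff n = 0 := by nlinarith [sq_nonneg (a.coeff n), sq_nonneg (b.coeff n)]
    have hb0 : b.coeff n = 0 := by nlinarith [sq_nonneg (a.coeff n), sq_nonneg (b.coeff n)]
    rcases max_choice a.natDegree b.natDegree with hm | hm
    · rw [hn, hm] at ha0
      have ha1 : a = 0 := leadingCoeff_eq_zero.1 ha0
      have hb1 : b ≠ 0 := by
        rcases h with h | h
        · exact absurd ha1 h
        · exact h
      have hnb : b.natDegree = n := by
        rw [ha1, natDegree_zero] at hm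
        rw [hn, ha1, natDegree_zero]
        simp
      rw [← hnb] at hb0
      exact hb1 (leadingCoeff_eq_zero.1 hb0)
    · rw [hn, hm] at hb0
      have hb1 : b = 0 := leadingCoeff_eq_zero.1 hb0
      have ha1 : a ≠ 0 := by
        rcases h with h | h
        · exact h
        · exact absurd hb1 h
      have hna : a.natDegree = n := by
        rw [hn, hb1, natDegree_zero]
        simp
      rw [← hna] at ha0
      exact ha1 (leadingCoeff_eq_zero.1 ha0)
  have hne' : (a ^ 2 + 3 * b ^ 2).coeff (2 * n) ≠ 0 := by rw [hc]; exact hne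
  refine ⟨fun h0 => hne' (by rw [h0, coeff_zero]), le_antisymm ?_ (le_natDegree_of_ne_zero hne')⟩
  refine (natDegree_add_le _ _).trans (max_le ?_ ?_)
  · exact natDegree_pow_le_of_le 2 ha
  · rw [h3]
    exact (natDegree_C_mul_le _ _).trans (natDegree_pow_le_of_le 2 hb)

lemma no_square {κ₁ : ℚ} (hκ : κ₁ ≠ 0) {u : Fin 3 → ℚ[X]} (hu : u ≠ 0) :
    (u 0) ^ 2 - 4 * PP κ₁ * ((u 1) ^ 2 + 3 * (u 2) ^ 2) ≠ 0 := by
  intro h0
  have h0' : (u 0) ^ 2 = 4 * PP κ₁ * ((u 1) ^ 2 + 3 * (u 2) ^ 2) := sub_eq_zero.1 h0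
  by_cases h : u 1 ≠ 0 ∨ u 2 ≠ 0
  · obtain ⟨h1, h2⟩ := natDegree_sq_add h
    have h4 : (4 : ℚ[X]) = C 4 := rfl
    have h5 := congrArg natDegree h0'
    rw [natDegree_pow, natDegree_mul (mul_ne_zero (by rw [h4]; simp) (PP_ne hκ)) h1, h2, h4,
      natDegree_C_mul (by norm_num), natDegree_PP hκ] at h5
    omega
  · push Not at h
    obtain ⟨h1, h2⟩ := h
    rw [h1, h2] at h0'
    have h3 : u 0 = 0 := by
      have : (u 0) ^ 2 = 0 := by rw [h0']; ring
      exact pow_eq_zero_iff (two_ne_zero) |>.1 this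
    apply hu
    funext i
    fin_cases i
    · exact h3
    · exact h1
    · exact h2

end aux

/-- Proportional sections over a general algebraically closed field. -/
theorem proportional_gen {k : Type*} [Field k] [Algebra ℚ k] [IsAlgClosed k] (θ : k) (hθ : θ ^ 2 = -3) (κ₁ : ℚ) (hκ : κ₁ ≠ 0)
    (Q : ℚ[X]) (hQ : Q ≠ 0) (hPQ : IsCoprime (PP κ₁) Q) (lam : ℚ)
    (σ : k[X]) (s t : Fin 3 → ℚ[X]) (hli : LinearIndependent ℚ ![s, t])
    (hs : InT (PK k κ₁) (C (algebraMap ℚ k lam))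
      (Q.map (algebraMap ℚ k)) σ (rf θ s) ∧ (s 0).degree < ((Q.natDegree + 2 : ℕ) : WithBot ℕ) ∧
      (s 1).degree < (Q.natDegree : WithBot ℕ) ∧ (s 2).degree < (Q.natDegree : WithBot ℕ))
    (ht : InT (PK k κ₁) (C (algebraMap ℚ k lam))
      (Q.map (algebraMap ℚ k)) σ (rf θ t) ∧ (t 0).degree < ((Q.natDegree + 2 : ℕ) : WithBot ℕ) ∧
      (t 1).degree < (Q.natDegree : WithBot ℕ) ∧ (t 2).degree < (Q.natDegree : WithBot ℕ))
    (hp : crs (rf θ s) (rf θ t) = 0) :
    ∃ (s₀ : Fin 3 → k[X]) (e : k), e ≠ 0 ∧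
      InT (PK k κ₁) (C (algebraMap ℚ k lam)) (Q.map (algebraMap ℚ k)) σ s₀ ∧
      (s₀ 0).degree < ((Q.natDegree + 1 : ℕ) : WithBot ℕ) ∧
      (s₀ 1).degree + 1 < (Q.natDegree : WithBot ℕ) ∧
      (s₀ 2).degree + 1 < (Q.natDegree : WithBot ℕ) ∧
      dsc (PK k κ₁) s₀ s₀ = C (e ^ 2) * (Q.map (algebraMap ℚ k)) ^ 2 := by
  have : CharZero k := algebraRat.charZero k
  have hθ0 : θ ≠ 0 := by
    rintro rfl
    norm_num at hθ
  have hinj : Function.Injective (Polynomial.map (algebraMap ℚ k)) :=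
    Polynomial.map_injective _ (algebraMap ℚ k).injective
  set φ : ℚ[X] →+* k[X] := mapRingHom (algebraMap ℚ k) with hφ
  have hφi : Function.Injective φ := hinj
  have hrf : ∀ r : Fin 3 → ℚ[X], rf θ r = ![φ (r 0), φ (r 1) + C θ * φ (r 2),
      φ (r 1) - C θ * φ (r 2)] := fun r => rfl
  have hCθ : (C θ : k[X]) ≠ 0 := C_ne_zero.2 hθ0
  have h2 : (2 : k[X]) ≠ 0 := two_ne_zero
  -- proportionality over `ℚ`
  have hcr : ∀ i j, s i * t j = s j * t i := by
    have c0 := congrFun hp 0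
    have c1 := congrFun hp 1
    have c2 := congrFun hp 2
    simp only [crs, hrf, Matrix.cons_val_zero, Matrix.cons_val_one, Matrix.cons_val,
      Pi.zero_apply] at c0 c1 c2
    have d12 : s 1 * t 2 = s 2 * t 1 := by
      apply hφi
      rw [map_mul, map_mul]
      have : (2 * C θ) * (φ (s 1) * φ (t 2) - φ (s 2) * φ (t 1)) = 0 := by
        linear_combination (-1 : k[X]) * c0
      rcases mul_eq_zero.1 this with h | h
      · exact absurd h (mul_ne_zero h2 hCθ)
      · exact sub_eq_zero.1 h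
    have d02 : s 0 * t 2 = s 2 * t 0 := by
      apply hφi
      rw [map_mul, map_mul]
      have : (2 * C θ) * (φ (s 0) * φ (t 2) - φ (s 2) * φ (t 0)) = 0 := by
        linear_combination c1 + c2
      rcases mul_eq_zero.1 this with h | h
      · exact absurd h (mul_ne_zero h2 hCθ)
      · exact sub_eq_zero.1 h
    have d01 : s 0 * t 1 = s 1 * t 0 := by
      apply hφi
      rw [map_mul, map_mul]
      have : 2 * (φ (s 0) * φ (t 1) - φ (s 1) * φ (t 0)) = 0 := by
        linear_combination c2 - c1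
      rcases mul_eq_zero.1 this with h | h
      · exact absurd h h2
      · exact sub_eq_zero.1 h
    intro i j
    fin_cases i <;> fin_cases j <;>
      simp only [Fin.zero_eta, Fin.mk_one, Fin.reduceFinMk, d12, d02, d01]
  have hlin : ∀ a b : ℚ, a • s + b • t = 0 → a = 0 ∧ b = 0 := by
    have := LinearIndependent.pair_iff.1 hli
    exact this
  have hs0 : s ≠ 0 := by
    rintro rfl
    have := hlin 1 0 (by simp)
    exact one_ne_zero this.1
  have ht0 : t ≠ 0 := by
    rintro rfl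
    have := hlin 0 1 (by simp)
    exact one_ne_zero this.2
  obtain ⟨i, hi⟩ : ∃ i, s i ≠ 0 := by
    by_contra hcon
    push Not at hcon
    exact hs0 (funext hcon)
  have hti : t i ≠ 0 := by
    intro h0
    apply ht0
    funext j
    have := hcr i j
    rw [h0, mul_zero] at this
    exact (mul_eq_zero.1 this).resolve_left hi
  obtain ⟨g, f, h, hgf, hgh, hcop, hg0⟩ : ∃ g f h : ℚ[X], s i = g * f ∧ t i = g * h ∧
      IsCoprime f h ∧ g ≠ 0 := by
    have hg : EuclideanDomain.gcd (s i) (t i) ≠ 0 := by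
      intro h0
      exact hi (EuclideanDomain.gcd_eq_zero_iff.1 h0).1
    obtain ⟨f, hf⟩ := EuclideanDomain.gcd_dvd_left (s i) (t i)
    obtain ⟨h, hh⟩ := EuclideanDomain.gcd_dvd_right (s i) (t i)
    refine ⟨_, f, h, hf, hh, ?_, hg⟩
    have := EuclideanDomain.gcd_eq_gcd_ab (s i) (t i)
    refine ⟨EuclideanDomain.gcdA (s i) (t i), EuclideanDomain.gcdB (s i) (t i), ?_⟩
    have key : ∀ G A B x y : ℚ[X], x = G * f → y = G * h → G = x * A + y * B →
        G * (A * f + B * h) = G * 1 := by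
      rintro G A B x y rfl rfl h3
      rw [mul_one]
      conv_rhs => rw [h3]
      ring
    exact mul_left_cancel₀ hg (key _ _ _ _ _ hf hh this)
  have hf0 : f ≠ 0 := by rintro rfl; exact hi (by rw [hgf, mul_zero])
  have hh0 : h ≠ 0 := by rintro rfl; exact hti (by rw [hgh, mul_zero])
  have hfh : ∀ j, f * t j = h * s j := by
    intro j
    apply mul_left_cancel₀ hg0
    have := hcr i j
    rw [hgf, hgh] at this
    linear_combination this
  have hdiv : ∀ j, ∃ u, s j = f * u := by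
    intro j
    exact hcop.dvd_of_dvd_mul_left (Dvd.intro _ (hfh j))
  choose u hu using hdiv
  have hut : ∀ j, t j = h * u j := by
    intro j
    apply mul_left_cancel₀ hf0
    rw [hfh j, hu j]; ring
  obtain ⟨a, b, hab⟩ := hcop
  have huab : ∀ j, u j = a * s j + b * t j := by
    intro j
    rw [hu j, hut j]
    linear_combination (-(u j)) * hab
  have hu0 : u ≠ 0 := by
    intro h0
    apply hi
    rw [hu i, h0]; simp
  have hdeg1 : 1 ≤ f.natDegree ∨ 1 ≤ h.natDegree := by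
    by_contra hcon
    push Not at hcon
    obtain ⟨h1, h2⟩ := hcon
    have e1 := eq_C_of_natDegree_eq_zero (p := f) (by omega)
    have e2 := eq_C_of_natDegree_eq_zero (p := h) (by omega)
    have := hlin (h.coeff 0) (-(f.coeff 0)) (by
      funext j
      rw [Pi.add_apply, Pi.smul_apply, Pi.smul_apply, hu j, hut j, smul_eq_C_mul, smul_eq_C_mul,
        C_neg, ← e2, ← e1, Pi.zero_apply]
      ring)
    exact hh0 (by rw [e2, this.1, C_0])
  have hdeg : ∀ (j : Fin 3) (N : ℕ), (s j).degree < (N : WithBot ℕ) →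
      (t j).degree < (N : WithBot ℕ) → u j = 0 ∨ (u j).natDegree + 1 < N := by
    intro j N h1 h2
    by_cases huj : u j = 0
    · exact Or.inl huj
    right
    have hsj : s j ≠ 0 := by rw [hu j]; exact mul_ne_zero hf0 huj
    have htj : t j ≠ 0 := by rw [hut j]; exact mul_ne_zero hh0 huj
    rw [degree_eq_natDegree hsj, hu j, natDegree_mul hf0 huj] at h1
    rw [degree_eq_natDegree htj, hut j, natDegree_mul hh0 huj] at h2
    have h1' : f.natDegree + (u j).natDegree < N := by exact_mod_cast h1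
    have h2' : h.natDegree + (u j).natDegree < N := by exact_mod_cast h2
    omega
  obtain ⟨hsT, hs0', hs1', hs2'⟩ := hs
  obtain ⟨htT, ht0', ht1', ht2'⟩ := ht
  have hd0 := hdeg 0 _ hs0' ht0'
  have hd1 := hdeg 1 _ hs1' ht1'
  have hd2 := hdeg 2 _ hs2' ht2'
  have hrfu : rf θ u = φ a • rf θ s + φ b • rf θ t := by
    funext j
    fin_cases j <;> simp [hrf, huab, map_add, map_mul] <;> ring
  have hT : InT (PK k κ₁) (C (algebraMap ℚ _ lam)) (Q.map (algebraMap ℚ k)) σ (rf θ u) := by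
    rw [hrfu]
    exact (hsT.smul _).add (htT.smul _)
  set D : ℚ[X] := (u 0) ^ 2 - 4 * PP κ₁ * ((u 1) ^ 2 + 3 * (u 2) ^ 2) with hD
  have hD0 : D ≠ 0 := no_square hκ hu0
  have hCθ2 : (C θ : k[X]) ^ 2 = -3 := by
    rw [← C_pow, hθ, C_neg]; rfl
  have hdsc : dsc (PK k κ₁) (rf θ u) (rf θ u) = D.map (algebraMap ℚ k) := by
    have e1 : D.map (algebraMap ℚ k) = φ D := rfl
    have e2 : PK k κ₁ = φ (PP κ₁) := rfl
    rw [e1, e2, hD]
    simp only [dsc, hrf, Matrix.cons_val_zero, Matrix.cons_val_one, Matrix.cons_val, map_sub,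
      map_add, map_mul, map_pow, map_ofNat]
    linear_combination (4 * φ (PP κ₁) * φ (u 2) ^ 2) * hCθ2
  have hQD : Q ^ 2 ∣ D := by
    have h1 := hT.dsc_dvd hT
    rw [hdsc, ← Polynomial.map_pow] at h1
    exact (Polynomial.map_dvd_map' (algebraMap ℚ k)).1 h1
  obtain ⟨c, hc⟩ := hQD
  have hDdeg : D.natDegree ≤ 2 * Q.natDegree := by
    rw [hD]
    refine (natDegree_sub_le _ _).trans (max_le ?_ ?_)
    · refine natDegree_pow_le_of_le 2 ?_
      rcases hd0 with h | h
      · rw [h]; simp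
      · omega
    · by_cases h12 : u 1 ≠ 0 ∨ u 2 ≠ 0
      · obtain ⟨h3, h4⟩ := natDegree_sq_add h12
        have h5 : (4 : ℚ[X]) = C 4 := rfl
        rw [natDegree_mul (mul_ne_zero (by rw [h5]; simp) (PP_ne hκ)) h3, h4, h5,
          natDegree_C_mul (by norm_num), natDegree_PP hκ]
        have h6 : (u 1).natDegree + 1 < Q.natDegree ∨ (u 2).natDegree + 1 < Q.natDegree := by
          rcases h12 with h | h
          · exact Or.inl (hd1.resolve_left h)
          · exact Or.inr (hd2.resolve_left h)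
        have h7 : (u 1).natDegree + 2 ≤ Q.natDegree := by
          rcases hd1 with h | h
          · rw [h]; simp; omega
          · omega
        have h8 : (u 2).natDegree + 2 ≤ Q.natDegree := by
          rcases hd2 with h | h
          · rw [h]; simp; omega
          · omega
        omega
      · push Not at h12
        rw [h12.1, h12.2]; simp
  have hc0 : c ≠ 0 := by rintro rfl; exact hD0 (by rw [hc, mul_zero])
  have hcdeg : c.natDegree = 0 := by
    rw [hc, natDegree_mul (pow_ne_zero 2 hQ) hc0, natDegree_pow] at hDdeg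
    omega
  obtain ⟨e, he⟩ := IsAlgClosed.exists_pow_nat_eq (algebraMap ℚ k (c.coeff 0)) (n := 2)
    (by norm_num)
  have he0 : e ≠ 0 := by
    rintro rfl
    have : algebraMap ℚ k (c.coeff 0) = 0 := by rw [← he]; norm_num
    rw [map_eq_zero] at this
    apply hc0
    rw [eq_C_of_natDegree_eq_zero hcdeg, this, C_0]
  have hmapdeg : ∀ p : ℚ[X], (φ p).degree = p.degree := fun p => degree_map p _
  have hlt : ∀ (j : Fin 3) (N : ℕ), (u j = 0 ∨ (u j).natDegree + 1 < N) →
      (u j).degree + 1 < (N : WithBot ℕ) := by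
    intro j N hj
    rcases hj with hj | hj
    · rw [hj, degree_zero, WithBot.bot_add]
      exact WithBot.bot_lt_coe N
    · by_cases h0 : u j = 0
      · rw [h0, degree_zero, WithBot.bot_add]
        exact WithBot.bot_lt_coe N
      · rw [degree_eq_natDegree h0]
        exact_mod_cast hj
  have hCm : ∀ p : k[X], (C θ * p).degree = p.degree := fun p => degree_C_mul hθ0
  have h12lt : ∀ v : k[X], v.degree ≤ max (u 1).degree (u 2).degree →
      v.degree + 1 < (Q.natDegree : WithBot ℕ) := by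
    intro v hv
    rcases max_choice (u 1).degree (u 2).degree with hm | hm
    · rw [hm] at hv
      exact lt_of_le_of_lt (by gcongr) (hlt 1 _ hd1)
    · rw [hm] at hv
      exact lt_of_le_of_lt (by gcongr) (hlt 2 _ hd2)
  refine ⟨rf θ u, e, he0, hT, ?_, ?_, ?_, ?_⟩
  · have h1 : (rf θ u 0).degree = (u 0).degree := hmapdeg _
    rw [h1]
    have h3 := hlt 0 _ hd0
    by_cases h0 : u 0 = 0
    · rw [h0, degree_zero]; exact WithBot.bot_lt_coe _
    · rw [degree_eq_natDegree h0] at h3 ⊢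
      have h4 : (u 0).natDegree + 1 < Q.natDegree + 2 := by exact_mod_cast h3
      exact_mod_cast (by omega : (u 0).natDegree < Q.natDegree + 1)
  · apply h12lt
    have : rf θ u 1 = φ (u 1) + C θ * φ (u 2) := rfl
    rw [this]
    refine (degree_add_le _ _).trans ?_
    rw [hCm, hmapdeg, hmapdeg]
  · apply h12lt
    have : rf θ u 2 = φ (u 1) - C θ * φ (u 2) := rfl
    rw [this]
    refine (degree_sub_le _ _).trans ?_
    rw [hCm, hmapdeg, hmapdeg]
  · rw [hdsc, hc, he]
    have h1 : c = C (c.coeff 0) := eq_C_of_natDegree_eq_zero hcdeg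
    conv_lhs => rw [h1]
    rw [Polynomial.map_mul, Polynomial.map_pow, map_C, mul_comm]

/-- JOB P1 (proportional sections). -/
theorem proportional (θ : AlgebraicClosure ℚ) (hθ : θ ^ 2 = -3) (κ₁ : ℚ) (hκ : κ₁ ≠ 0)
    (Q : ℚ[X]) (hQ : Q ≠ 0) (hPQ : IsCoprime (PP κ₁) Q) (lam : ℚ)
    (σ : (AlgebraicClosure ℚ)[X]) (s t : Fin 3 → ℚ[X]) (hli : LinearIndependent ℚ ![s, t])
    (hs : InT (PK (AlgebraicClosure ℚ) κ₁) (C (algebraMap ℚ _ lam))
      (Q.map (algebraMap ℚ _)) σ (rf θ s) ∧ (s 0).degree < ((Q.natDegree + 2 : ℕ) : WithBot ℕ) ∧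
      (s 1).degree < (Q.natDegree : WithBot ℕ) ∧ (s 2).degree < (Q.natDegree : WithBot ℕ))
    (ht : InT (PK (AlgebraicClosure ℚ) κ₁) (C (algebraMap ℚ _ lam))
      (Q.map (algebraMap ℚ _)) σ (rf θ t) ∧ (t 0).degree < ((Q.natDegree + 2 : ℕ) : WithBot ℕ) ∧
      (t 1).degree < (Q.natDegree : WithBot ℕ) ∧ (t 2).degree < (Q.natDegree : WithBot ℕ))
    (hp : crs (rf θ s) (rf θ t) = 0) :
    ∃ (s₀ : Fin 3 → (AlgebraicClosure ℚ)[X]) (e : AlgebraicClosure ℚ), e ≠ 0 ∧
      InT (PK (AlgebraicClosure ℚ) κ₁) (C (algebraMap ℚ _ lam)) (Q.map (algebraMap ℚ _)) σ s₀ ∧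
      (s₀ 0).degree < ((Q.natDegree + 1 : ℕ) : WithBot ℕ) ∧
      (s₀ 1).degree + 1 < (Q.natDegree : WithBot ℕ) ∧
      (s₀ 2).degree + 1 < (Q.natDegree : WithBot ℕ) ∧
      dsc (PK (AlgebraicClosure ℚ) κ₁) s₀ s₀ = C (e ^ 2) * (Q.map (algebraMap ℚ _)) ^ 2 :=
  proportional_gen θ hθ κ₁ hκ Q hQ hPQ lam σ s t hli hs ht hp

end Pool.Agent.H48.SymDP
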